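import Mathlib
import Pool.Agent.H765.CS.TS

/-! The Ohtsuki series, so the LMO invariant, separates all connected sums of Seifert fibred
integral homology spheres (with both orientations and any number of exceptional fibres): the
series of the Seifert homology spheres are multiplicatively independent, even modulo series of
small factorial growth. For the `1/n`-surgeries on torus knots the Ohtsuki series is computed from
the coloured Jones polynomials of the torus knots. -/

open Pool.Agent.H765.CS in
theorem Pool.Agent.Results.MP_27a3bb_gt.ConnectedSums.result :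
    (∀ r : SeifertSphere → ℚ, Function.Injective (fun L : Multiset SeifertSphere =>
      (L.map fun M => seifertTau M.fibres M.P (r M)).prod)) ∧
    (∀ (r : SeifertSphere → ℚ) (ρ : ℝ), 0 < ρ → ∀ L L' : Multiset SeifertSphere,
      (∀ M ∈ L + L', Real.pi ^ 2 * ρ < |(M.P : ℝ)|) → ∀ U V : PowerSeries ℚ,
      Gevrey ρ U → Gevrey ρ V → U ≠ 0 →
      U * (L.map fun M => seifertTau M.fibres M.P (r M)).prod =
        V * (L'.map fun M => seifertTau M.fibres M.P (r M)).prod → L = L' ∧ U = V) ∧
    (∀ x : TorusSurgery, x.tau = seifertTau x.sphere.fibres x.sphere.P x.r) ∧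
    Function.Injective (fun L : Multiset TorusSurgery => (L.map TorusSurgery.tau).prod) :=
  ⟨sphere_injective, fun r _ hρ L L' hL U V hU hV hU0 h =>
    sphere_gevrey r hρ L L' hL U V hU hV hU0 h, TorusSurgery.tau_eq, torus_injective⟩
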