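import Mathlib
import Pool.Agent.H765.MM.FinGraph

/-! The Ohtsuki series, so the LMO invariant, separates the integral homology spheres
`S^3_{1/n}(K)`, `n ∈ ℤ`, for every non-trivial knot `K` obtained from knots with non-zero Casson
invariant by iterated generalised doubling and `(p, ± 1)`-cabling, and it separates all but
finitely many of the surgeries on any two different doubles. -/

open Pool.Agent.H765.MM Pool.Agent.H765.ST Pool.Agent.H765.DB Pool.Agent.H765.GK PowerSeries in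
theorem Pool.Agent.Results.MP_27a3bb_gt.IteratedDoubles.result :
    (∀ (ι : Type) (F : ι → ℤ → PowerSeries ℚ) (c : ι → ℚ), (∀ i, SeedFn (F i) (c i)) →
      (∀ K : Knot ι, ¬ K.Trivial →
        K.lead c ≠ 0 ∧ 2 ≤ K.deg (fun _ => 2) ∧
        (∀ n : ℤ, X ^ (K.deg (fun _ => 2)) ∣ ohtsuki n (colJ F K) -
          (1 - C (3 * K.lead c * n) * X ^ (K.deg (fun _ => 2) - 1))) ∧
        Function.Injective fun n : ℤ => ohtsuki n (colJ F K)) ∧
      (∀ (K L K' L' : Knot ι) (m k m' k' : ℤ), ¬ (Knot.plumb K m L k).Trivial →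
        ¬ (Knot.plumb K' m' L' k').Trivial →
        {x : ℤ × ℤ | x.1 ≠ 0 ∧ x.2 ≠ 0 ∧ x.1 ≠ x.2 ∧
          ohtsuki x.1 (colJ F (.plumb K m L k)) =
            ohtsuki x.2 (colJ F (.plumb K' m' L' k'))}.Subsingleton ∧
        (colJ F (.plumb K m L k) ≠ colJ F (.plumb K' m' L' k') →
          {x : ℤ × ℤ | x.1 ≠ 0 ∧ x.2 ≠ 0 ∧ ohtsuki x.1 (colJ F (.plumb K m L k)) =
            ohtsuki x.2 (colJ F (.plumb K' m' L' k'))}.Finite))) ∧
    (∀ K : GraphKnot, ¬ Isotopic K GraphKnot.unknot → ∃ c : ℚ, SeedFn (colouredJones K) c) ∧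
    (∀ (K K' : GraphKnot) (m m' ε ε' : ℤ), (ε = 1 ∨ ε = -1) → (ε' = 1 ∨ ε' = -1) →
      ¬ (Isotopic K GraphKnot.unknot ∧ m = 0) → ¬ (Isotopic K' GraphKnot.unknot ∧ m' = 0) →
      ¬ ((Isotopic K K' ∧ m = m' ∧ ε = ε') ∨ (Isotopic K GraphKnot.unknot ∧
        Isotopic K' GraphKnot.unknot ∧ m = -ε ∧ m' = -ε')) →
      {x : ℤ × ℤ | x.1 ≠ 0 ∧ x.2 ≠ 0 ∧ ohtsuki x.1 (doubleJ m ε (colouredJones K)) =
        ohtsuki x.2 (doubleJ m' ε' (colouredJones K'))}.Finite) := by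
  refine ⟨fun ι F c hF => ⟨fun K hK => ?_, fun K L K' L' m k m' k' hD hD' => ⟨?_, ?_⟩⟩,
    seed_graph, fun K K' m m' ε ε' hε hε' hD hD' hne =>
      (double_graph_finite hε hε' K K' hD hD').2 hne⟩
  · obtain ⟨h1, h2, _⟩ := (cls hF K).2.2 hK
    exact ⟨h1, h2, cls_first hF hK, fun n n' h => cls_injective hF hK h⟩
  · obtain ⟨e, b, g, hb, h⟩ := plumb_data hF K m L k hD
    obtain ⟨e', b', g', hb', h'⟩ := plumb_data hF K' m' L' k' hD'
    rintro ⟨n, n'⟩ ⟨a1, a2, a3, a4⟩ ⟨j, j'⟩ ⟨b1, b2, b3, b4⟩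
    obtain ⟨r1, r2⟩ := h.offdiag h' hb hb' a1 a2 b1 b2 a3 a4 b4
    exact Prod.ext r1 r2
  · exact fun hne => cls_finite hF hD hD' hne
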