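import Mathlib
import Pool.Agent.H765.MM.AllPairs

/-! Let `K` and `K'` be knots with different coloured Jones polynomials, not both with vanishing
Casson invariant. Then the Ohtsuki series, so the LMO invariant, separates the integral homology
spheres `S^3_{1/n}(K)` and `S^3_{1/n'}(K')` for all but finitely many pairs `(n, n')` of non-zero
integers. In particular this holds for any two different graph knots. -/

open Pool.Agent.H765.MM Pool.Agent.H765.GK in
theorem Pool.Agent.Results.MP_27a3bb_gt.PairsOfSurgeries.result :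
    (∀ (J J' : ℤ → PowerSeries ℚ) (c c' : ℚ), JonesFn J c → JonesFn J' c' → J ≠ J' →
      (c ≠ 0 ∨ c' ≠ 0) →
      {x : ℤ × ℤ | x.1 ≠ 0 ∧ x.2 ≠ 0 ∧ ohtsuki x.1 J = ohtsuki x.2 J'}.Finite) ∧
    (∀ K : GraphKnot, ∃ c : ℚ, JonesFn (colouredJones K) c) ∧
    (∀ K K' : GraphKnot, ¬ Isotopic K K' →
      {x : ℤ × ℤ | x.1 ≠ 0 ∧ x.2 ≠ 0 ∧ ohtsuki x.1 (colouredJones K) =
        ohtsuki x.2 (colouredJones K')}.Finite) :=
  ⟨fun _ _ _ _ h h' hne hcc => all_pairs h h' hcc hne,
    fun K => let ⟨c, hc, _⟩ := jonesFn_graph K; ⟨c, hc⟩, fun _ _ h => all_pairs_graph h⟩
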