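import Mathlib
import Pool.Agent.H765.BZ.All

/-! The Ohtsuki series, so the LMO invariant, and Seifert fibred homology spheres: if infinitely
many `1/n`-surgeries on a knot have the series of Seifert fibred integral homology spheres (any
number of exceptional fibres, any orientation), then the coloured Jones function of the knot is
that of a torus knot (and all the surgeries on a torus knot are Seifert fibred). -/

open Pool.Agent.H765.CS Pool.Agent.H765.MM Pool.Agent.H765.GK in
theorem Pool.Agent.Results.MP_27a3bb_gt.SeifertSurgeries.result :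
    (∀ (J : ℤ → PowerSeries ℚ) (c : ℚ), JonesFn J c →
      ({n : ℤ | n ≠ 0 ∧ ∃ (M : SeifertSphere) (r : ℚ),
        ohtsuki n J = seifertTau M.fibres M.P r}.Infinite ↔
      ∃ (p : ℕ) (q : ℤ) (hp : 2 ≤ p) (hq : IsCoprime (p : ℤ) q),
        (p : ℤ) < |q| ∧ J = colouredJones (GraphKnot.cable p q hp hq GraphKnot.unknot))) ∧
    (∀ K : GraphKnot,
      ({n : ℤ | n ≠ 0 ∧ ∃ (M : SeifertSphere) (r : ℚ),
        ohtsuki n (colouredJones K) = seifertTau M.fibres M.P r}.Infinite ↔
      ∃ (p : ℕ) (q : ℤ) (hp : 2 ≤ p) (hq : IsCoprime (p : ℤ) q),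
        (p : ℤ) < |q| ∧ Isotopic K (GraphKnot.cable p q hp hq GraphKnot.unknot))) :=
  ⟨fun _ _ h => Pool.Agent.H765.BZ.seifert_infinite_iff h,
    Pool.Agent.H765.BZ.seifert_infinite_graph_iff⟩
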